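import Pool.Agent.helper62.DP7.Spec

/-!
# d7:FAN: colouring five vertices from lists of sizes 4, 3, 3, 2, 2 (or 4, 3, 3, 3, 3)
-/

set_option autoImplicit false

namespace Pool.Agent.helper62.DP7

open Finset

/-- one colour forbids at most one element of a list -/
theorem FAN_rem (W : Type) (R : W → W → Prop) (X Y Y' : Finset W) (c : W) (h : Mt R X Y) (hc : c ∈ X)
    (hY : Y' ⊆ Y) : ∃ Y'' ⊆ Y', Y'.card ≤ Y''.card + 1 ∧ ∀ y ∈ Y'', ¬ R c y := by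
  classical
  by_cases hex : ∃ y0 ∈ Y', R c y0
  · obtain ⟨y0, hy0, hR⟩ := hex
    refine ⟨Y'.erase y0, Finset.erase_subset _ _, ?_, ?_⟩
    · rw [Finset.card_erase_of_mem hy0]
      omega
    · intro y hy hRy
      rw [Finset.mem_erase] at hy
      exact hy.1 (h c hc y (hY hy.2) y0 (hY hy0) hRy hR)
  · push Not at hex
    exact ⟨Y', Finset.Subset.refl _, by omega, hex⟩

/-- a colour that leaves `m` elements of a list -/
theorem FAN_pick (W : Type) (R : W → W → Prop) (hs : ∀ a b, R a b → R b a) (X Y : Finset W) (m : ℕ)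
    (h : Mt R X Y) (h' : Mt R Y X) (hX : m < X.card) (hY : m ≤ Y.card) :
    ∃ c ∈ X, ∃ Y'' ⊆ Y, m ≤ Y''.card ∧ ∀ y ∈ Y'', ¬ R c y := by
  classical
  rcases Nat.lt_or_ge m Y.card with h1 | h1
  · obtain ⟨c, hc⟩ : X.Nonempty := Finset.card_pos.1 (by omega)
    obtain ⟨Y'', h2, h3, h4⟩ := FAN_rem W R X Y Y c h hc (Finset.Subset.refl _)
    exact ⟨c, hc, Y'', h2, by omega, h4⟩
  · by_cases hex : ∃ c ∈ X, ∀ y ∈ Y, ¬ R c y
    · obtain ⟨c, hc, h2⟩ := hex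
      exact ⟨c, hc, Y, Finset.Subset.refl _, hY, h2⟩
    · exfalso
      push Not at hex
      choose! g hg1 hg2 using hex
      have hle : X.card ≤ Y.card := by
        refine Finset.card_le_card_of_injOn g (fun c hc => hg1 c hc) ?_
        intro c hc c' hc' hcc
        have e1 := hs _ _ (hg2 c hc)
        have e2 := hs _ _ (hg2 c' hc')
        rw [← hcc] at e2
        exact h' (g c) (hg1 c hc) c hc c' hc' e1 e2
      omega

theorem FAN : FAN_stmt := by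
  intro W R Lu La Lb Lp Lq P hs hua hau hub hbu hup hpu huq hqu hab hba hap hpa hbq hqb hpq hqp
    cU cA cB cP cQ hP
  by_cases hp : P
  · obtain ⟨cP3, cQ3⟩ := hP hp
    obtain ⟨cu, hcu, A1, hA1, cA1, nA1⟩ := FAN_pick W R hs Lu La 3 hua hau (by omega) cA
    obtain ⟨B1, hB1, cB1, nB1⟩ := FAN_rem W R Lu Lb Lb cu hub hcu (Finset.Subset.refl _)
    obtain ⟨P1, hP1, cP1, nP1⟩ := FAN_rem W R Lu Lp Lp cu hup hcu (Finset.Subset.refl _)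
    obtain ⟨Q1, hQ1, cQ1, nQ1⟩ := FAN_rem W R Lu Lq Lq cu huq hcu (Finset.Subset.refl _)
    obtain ⟨cb, hcb⟩ : B1.Nonempty := Finset.card_pos.1 (by omega)
    obtain ⟨A2, hA2, cA2, nA2⟩ := FAN_rem W R Lb La A1 cb hba (hB1 hcb) hA1
    obtain ⟨Q2, hQ2, cQ2, nQ2⟩ := FAN_rem W R Lb Lq Q1 cb hbq (hB1 hcb) hQ1
    obtain ⟨cq, hcq⟩ : Q2.Nonempty := Finset.card_pos.1 (by omega)
    obtain ⟨P2, hP2, cP2, nP2⟩ := FAN_rem W R Lq Lp P1 cq hqp (hQ1 (hQ2 hcq)) hP1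
    obtain ⟨cp, hcp⟩ : P2.Nonempty := Finset.card_pos.1 (by omega)
    obtain ⟨A3, hA3, cA3, nA3⟩ := FAN_rem W R Lp La A2 cp hpa (hP1 (hP2 hcp)) (hA2.trans hA1)
    obtain ⟨ca, hca⟩ : A3.Nonempty := Finset.card_pos.1 (by omega)
    refine ⟨cu, hcu, ca, hA1 (hA2 (hA3 hca)), cb, hB1 hcb, cp, hP1 (hP2 hcp), cq, hQ1 (hQ2 hcq), ?_⟩
    refine ⟨nA1 _ (hA2 (hA3 hca)), nB1 _ hcb, nP1 _ (hP2 hcp), nQ1 _ (hQ2 hcq), ?_, ?_, nQ2 _ hcq, ?_⟩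
    · exact fun h => nA2 _ (hA3 hca) (hs _ _ h)
    · exact fun h => nA3 _ hca (hs _ _ h)
    · exact fun _ h => nP2 _ hcp (hs _ _ h)
  · obtain ⟨cu, hcu, P1, hP1, cP1, nP1⟩ := FAN_pick W R hs Lu Lp 2 hup hpu (by omega) cP
    obtain ⟨A1, hA1, cA1, nA1⟩ := FAN_rem W R Lu La La cu hua hcu (Finset.Subset.refl _)
    obtain ⟨B1, hB1, cB1, nB1⟩ := FAN_rem W R Lu Lb Lb cu hub hcu (Finset.Subset.refl _)
    obtain ⟨Q1, hQ1, cQ1, nQ1⟩ := FAN_rem W R Lu Lq Lq cu huq hcu (Finset.Subset.refl _)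
    obtain ⟨cq, hcq⟩ : Q1.Nonempty := Finset.card_pos.1 (by omega)
    obtain ⟨B2, hB2, cB2, nB2⟩ := FAN_rem W R Lq Lb B1 cq hqb (hQ1 hcq) hB1
    obtain ⟨cb, hcb⟩ : B2.Nonempty := Finset.card_pos.1 (by omega)
    obtain ⟨A2, hA2, cA2, nA2⟩ := FAN_rem W R Lb La A1 cb hba (hB1 (hB2 hcb)) hA1
    obtain ⟨ca, hca⟩ : A2.Nonempty := Finset.card_pos.1 (by omega)
    obtain ⟨P2, hP2, cP2, nP2⟩ := FAN_rem W R La Lp P1 ca hap (hA1 (hA2 hca)) hP1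
    obtain ⟨cp, hcp⟩ : P2.Nonempty := Finset.card_pos.1 (by omega)
    refine ⟨cu, hcu, ca, hA1 (hA2 hca), cb, hB1 (hB2 hcb), cp, hP1 (hP2 hcp), cq, hQ1 hcq, ?_⟩
    refine ⟨nA1 _ (hA2 hca), nB1 _ (hB2 hcb), nP1 _ (hP2 hcp), nQ1 _ hcq, ?_, nP2 _ hcp, ?_, fun h => absurd h hp⟩
    · exact fun h => nA2 _ hca (hs _ _ h)
    · exact fun h => nB2 _ hcb (hs _ _ h)

end Pool.Agent.helper62.DP7
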